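import Pool.Agent.W2helper90.FD.Order
import Pool.Agent.W2helper90.FC.Many

/-!
# Colourings with a linear number of cells
-/

set_option autoImplicit false

namespace Pool.Agent.W2helper90.FD

open Finset Pool.Agent.TH138.NF Pool.Agent.W2helper90.FC

variable {κ : Type}

/-- the colour of `A ∪ {z}` -/
def tr (c : Finset ℕ → κ) (A : Finset ℕ) (z : ℕ) : Option κ :=
  if z ∈ A then none else some (c (insert z A))

/-- `m` sets of size `r` separate at most `C m` vertices -/
def Sep (c : Finset ℕ → κ) (N r C : ℕ) : Prop :=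
  ∀ 𝒜 : Finset (Finset ℕ), 𝒜.Nonempty → (∀ A ∈ 𝒜, A ⊆ range N ∧ A.card = r) →
    ∀ Y ⊆ range N, (∀ x ∈ Y, ∀ y ∈ Y, x ≠ y → ∃ A ∈ 𝒜, tr c A x ≠ tr c A y) →
      Y.card ≤ C * 𝒜.card

open Classical in
theorem ch_count {α : Type} (s : ℕ → α) (l : List ℕ) :
    ((range l.length).filter fun i => i + 1 < l.length ∧
      s (l.getD i 0) ≠ s (l.getD (i + 1) 0)).card ≤ ch s l := by
  classical
  induction l with
  | nil => simp
  | cons a t ih =>
    cases t with
    | nil =>
      rw [ch_single, Nat.le_zero, card_eq_zero, filter_eq_empty_iff]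
      intro i _ h
      simp at h
    | cons b t =>
      rw [ch_cons]
      set T := (range (b :: t).length).filter fun i => i + 1 < (b :: t).length ∧
        s ((b :: t).getD i 0) ≠ s ((b :: t).getD (i + 1) 0) with hT
      have hsub : ((range (a :: b :: t).length).filter fun i => i + 1 < (a :: b :: t).length ∧
          s ((a :: b :: t).getD i 0) ≠ s ((a :: b :: t).getD (i + 1) 0)) ⊆
          (if s a = s b then ∅ else {0}) ∪ T.image (fun i => i + 1) := by
        intro i hi
        rw [mem_filter, mem_range] at hi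
        obtain ⟨h1, h2, h3⟩ := hi
        rw [mem_union]
        cases i with
        | zero =>
          left
          have h4 : s a ≠ s b := h3
          rw [if_neg h4]
          simp
        | succ i =>
          right
          rw [mem_image]
          refine ⟨i, ?_, rfl⟩
          rw [hT, mem_filter, mem_range]
          simp only [List.length_cons] at h1 h2 ⊢
          exact ⟨by omega, by omega, h3⟩
      refine (card_le_card hsub).trans ((card_union_le _ _).trans ?_)
      have h1 : (if s a = s b then (∅ : Finset ℕ) else {0}).card ≤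
          (if s a = s b then 0 else 1) := by
        by_cases h : s a = s b
        · simp [h]
        · simp [h]
      have h2 : (T.image (fun i => i + 1)).card ≤ ch s (b :: t) := card_image_le.trans ih
      omega

theorem ch_count' {α : Type} (s : ℕ → α) (l : List ℕ) (T : Finset ℕ)
    (hT : ∀ i ∈ T, i + 1 < l.length ∧ s (l.getD i 0) ≠ s (l.getD (i + 1) 0)) :
    T.card ≤ ch s l := by
  classical
  refine le_trans (card_le_card ?_) (ch_count s l)
  intro i hi
  have := hT i hi
  simp only [mem_filter, mem_range]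
  exact ⟨by omega, this⟩

/-- Reordering. -/
theorem reorder (c : Finset ℕ → κ) (N r C ℓ : ℕ) (hC : 1 ≤ C) (hc : Sep c N r C)
    (hN : 2 ^ ℓ ≤ N) :
    ∃ v : ℕ → ℕ, (∀ i < 2 ^ ℓ, v i < 2 ^ ℓ) ∧ (∀ i < 2 ^ ℓ, ∀ j < 2 ^ ℓ, v i = v j → i = j) ∧
      ∀ A ⊆ range (2 ^ ℓ), A.card = r →
        changes (fun S => c (S.image v)) (2 ^ ℓ) A ≤ ℓ * (r + 4 * C * ℓ) := by
  classical
  set M := 2 ^ ℓ with hM
  have hM1 : 1 ≤ M := Nat.one_le_pow _ _ (by norm_num)
  set F := (range M).powersetCard r with hF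
  have hFr : ∀ A ∈ F, A ⊆ range N ∧ A.card = r := by
    intro A hA
    rw [hF, mem_powersetCard] at hA
    exact ⟨hA.1.trans (range_subset_range.2 hN), hA.2⟩
  obtain ⟨l, hl, hsum⟩ := order F (tr c) C ℓ hC (range M) (by rw [card_range]) (by
    intro G hG hGne Y hY hYs
    exact hc G hGne (fun A hA => hFr A (hG hA)) Y (hY.trans (range_subset_range.2 hN)) hYs)
    (M - 1) ((List.range M).map fun x => [x]) (by
      rw [List.length_map, List.length_range]
      omega) (by
      intro l hl
      rw [List.mem_map] at hl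
      obtain ⟨x, -, rfl⟩ := hl
      simp) (by
      rw [← List.flatMap_def, List.flatMap_singleton']
      exact List.nodup_range) (by
      intro x hx
      rw [← List.flatMap_def, List.flatMap_singleton', List.mem_range] at hx
      exact mem_range.2 hx)
  rw [← List.flatMap_def, List.flatMap_singleton'] at hl
  have hlen : l.length = M := by rw [hl.length_eq, List.length_range]
  have hnd : l.Nodup := hl.nodup_iff.2 List.nodup_range
  have hch : ∀ A ∈ F, ch (tr c A) l ≤ ℓ * (r + 4 * C * ℓ) := by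
    intro A hA
    have h1 : 2 ^ ch (tr c A) l ≤ ∑ i ∈ F, 2 ^ ch (tr c i) l :=
      single_le_sum (f := fun i => 2 ^ ch (tr c i) l) (fun _ _ => Nat.zero_le _) hA
    have h2 : (∑ i ∈ F, 2 ^ (((List.range M).map fun x => [x]).map (ch (tr c i))).sum) =
        F.card := by
      rw [card_eq_sum_ones]
      apply sum_congr rfl
      intro i _
      have : (((List.range M).map fun x => [x]).map (ch (tr c i))).sum = 0 := by
        rw [List.map_map]
        have e : (ch (tr c i) ∘ fun x => [x]) = fun _ => 0 := by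
          funext x
          exact ch_single _ _
        rw [e]
        simp
      rw [this, pow_zero]
    rw [h2] at hsum
    have h3 : F.card ≤ M ^ r := by
      rw [hF, card_powersetCard, card_range]
      exact Nat.choose_le_pow M r
    have h4 : (M - 1 + 4 * C * ℓ).choose (4 * C * ℓ) ≤ M ^ (4 * C * ℓ) := by
      have := choose_le (M - 1) (4 * C * ℓ)
      rwa [Nat.sub_add_cancel hM1] at this
    have h5 : 2 ^ ch (tr c A) l ≤ 2 ^ (ℓ * (r + 4 * C * ℓ)) := by
      calc 2 ^ ch (tr c A) l ≤ F.card * (M - 1 + 4 * C * ℓ).choose (4 * C * ℓ) := h1.trans hsum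
        _ ≤ M ^ r * M ^ (4 * C * ℓ) := Nat.mul_le_mul h3 h4
        _ = 2 ^ (ℓ * (r + 4 * C * ℓ)) := by rw [← pow_add, hM, ← pow_mul]
    exact (Nat.pow_le_pow_iff_right (by norm_num)).1 h5
  refine ⟨fun i => l.getD i 0, ?_, ?_, ?_⟩
  · intro i hi
    have h1 : l.getD i 0 ∈ l := by
      rw [List.getD_eq_getElem l 0 (by omega)]
      exact List.getElem_mem _
    exact List.mem_range.1 (hl.mem_iff.1 h1)
  · intro i hi j hj hij
    simp only at hij
    rw [List.getD_eq_getElem l 0 (by omega), List.getD_eq_getElem l 0 (by omega)] at hij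
    exact (List.Nodup.getElem_inj_iff hnd).1 hij
  · intro A hA hAc
    set v : ℕ → ℕ := fun i => l.getD i 0 with hv
    have hvlt : ∀ i < M, v i < M := by
      intro i hi
      have h1 : l.getD i 0 ∈ l := by
        rw [List.getD_eq_getElem l 0 (by omega)]
        exact List.getElem_mem _
      exact List.mem_range.1 (hl.mem_iff.1 h1)
    have hvinj : ∀ i < M, ∀ j < M, v i = v j → i = j := by
      intro i hi j hj hij
      simp only [hv] at hij
      rw [List.getD_eq_getElem l 0 (by omega), List.getD_eq_getElem l 0 (by omega)] at hij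
      exact (List.Nodup.getElem_inj_iff hnd).1 hij
    have hAF : A.image v ∈ F := by
      rw [hF, mem_powersetCard]
      constructor
      · intro x hx
        obtain ⟨a, ha, rfl⟩ := mem_image.1 hx
        exact mem_range.2 (hvlt a (mem_range.1 (hA ha)))
      · rw [card_image_of_injOn, hAc]
        intro a ha b hb hab
        exact hvinj a (mem_range.1 (hA ha)) b (mem_range.1 (hA hb)) hab
    let T := (range M).filter fun i => i + 1 < l.length ∧
      tr c (A.image v) (l.getD i 0) ≠ tr c (A.image v) (l.getD (i + 1) 0)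
    refine (le_trans ?_ (ch_count' (tr c (A.image v)) l T
      (fun i hi => (mem_filter.1 hi).2))).trans (hch _ hAF)
    apply changes_le
    intro z h1 h2 h3 h4
    refine mem_filter.2 ⟨mem_range.2 (by omega), by omega, ?_⟩
    have hnot : ∀ x, x < M → x ∉ A → v x ∉ A.image v := by
      intro x hx hxA hmem
      obtain ⟨a, ha, hax⟩ := mem_image.1 hmem
      exact hxA (hvinj a (mem_range.1 (hA ha)) x hx hax ▸ ha)
    show tr c (A.image v) (v z) ≠ tr c (A.image v) (v (z + 1))
    unfold tr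
    rw [if_neg (hnot z (by omega) h2), if_neg (hnot (z + 1) h1 h3)]
    intro heq
    apply h4
    rw [image_insert, image_insert]
    exact Option.some.inj heq

/-- the number of vertices in the base case -/
theorem numeric (d g C : ℕ) (hd : 1 ≤ d) (hg : 1 ≤ g) (hC : 1 ≤ C) (hCg : C ≤ 2 ^ g) :
    (2 * (4 ^ d * d * ((16 * (d * (d + g))) * (2 + 4 * C * (16 * (d * (d + g))))) + 1)) ^ d ≤
      2 ^ (16 * (d * (d + g))) := by
  set e := d + g with he
  set h := 16 * e with hh
  have hℓ : 16 * (d * e) = d * h := by rw [hh]; ring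
  rw [hℓ, mul_comm d h, pow_mul]
  apply Nat.pow_le_pow_left
  have h1 : 1 ≤ h * d := Nat.mul_pos (by omega) hd
  have h2 : h * d * (2 + 4 * C * (h * d)) ≤ 6 * C * (h * d) ^ 2 := by nlinarith
  have h3 : 1 ≤ 4 ^ d * d * (C * (h * d) ^ 2) :=
    Nat.one_le_iff_ne_zero.2 (by positivity)
  have h4 : 2 * (4 ^ d * d * (h * d * (2 + 4 * C * (h * d))) + 1) ≤
      14 * (4 ^ d * d * (C * (h * d) ^ 2)) := by
    have := Nat.mul_le_mul_left (4 ^ d * d) h2
    nlinarith
  have h5 : d ≤ 2 ^ d := Nat.lt_two_pow_self.le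
  have h6 : h ^ 2 ≤ 2 ^ (8 * e) := by
    have h7 : 16 * e ≤ 16 ^ e := by
      have h8 : ∀ m : ℕ, 1 ≤ m → 16 * m ≤ 16 ^ m := by
        intro m hm
        induction m, hm using Nat.le_induction with
        | base => norm_num
        | succ m hm ih => rw [pow_succ]; omega
      exact h8 e (by omega)
    calc h ^ 2 ≤ (16 ^ e) ^ 2 := Nat.pow_le_pow_left h7 2
      _ = 2 ^ (8 * e) := by
        rw [show (16 : ℕ) = 2 ^ 4 by norm_num, ← pow_mul, ← pow_mul]
        congr 1; ring
  calc 2 * (4 ^ d * d * (h * d * (2 + 4 * C * (h * d))) + 1)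
      ≤ 14 * (4 ^ d * d * (C * (h * d) ^ 2)) := h4
    _ = 14 * 4 ^ d * d ^ 3 * C * h ^ 2 := by ring
    _ ≤ 2 ^ 4 * 4 ^ d * (2 ^ d) ^ 3 * 2 ^ g * 2 ^ (8 * e) := by gcongr; norm_num
    _ = 2 ^ (4 + 5 * d + g + 8 * e) := by
        rw [show (4 : ℕ) ^ d = 2 ^ (2 * d) by rw [pow_mul]; norm_num, ← pow_mul, ← pow_add,
          ← pow_add, ← pow_add, ← pow_add]
        congr 1; ring
    _ ≤ 2 ^ h := Nat.pow_le_pow_right (by norm_num) (by omega)

theorem back {M N : ℕ} {v : ℕ → ℕ} (hMN : M ≤ N) (hv : ∀ i < M, v i < M)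
    (hinj : ∀ i < M, ∀ j < M, v i = v j → i = j) {S : Finset ℕ} (hS : S ⊆ range M) :
    S.image v ⊆ range N ∧ (S.image v).card = S.card ∧
      ∀ T ⊆ S.image v, ∃ T' ⊆ S, T'.card = T.card ∧ T'.image v = T := by
  classical
  have hSi : Set.InjOn v S := fun a ha b hb hab =>
    hinj a (mem_range.1 (hS ha)) b (mem_range.1 (hS hb)) hab
  refine ⟨?_, card_image_of_injOn hSi, ?_⟩
  · intro x hx
    obtain ⟨a, ha, rfl⟩ := mem_image.1 hx
    have := hv a (mem_range.1 (hS ha))
    exact mem_range.2 (by omega)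
  · intro T hT
    obtain ⟨T', hT', rfl⟩ := Finset.subset_image_iff.1 hT
    have h1 : T' ⊆ S := by exact_mod_cast hT'
    exact ⟨T', h1, (card_image_of_injOn (hSi.mono (by exact_mod_cast h1))).symm, rfl⟩

/-- two colours, triples -/
theorem two_sep (s t N d g C : ℕ) (hd : (s - 2) * (t - 2) < d) (hg : 1 ≤ g) (hC : 1 ≤ C)
    (hCg : C ≤ 2 ^ g) (hN : 2 ^ (16 * (d * (d + g))) ≤ N) (c : Finset ℕ → Bool)
    (hc : Sep c N 2 C) :
    (∃ S ⊆ range N, S.card = s ∧ Mono3 c false S) ∨
      (∃ S ⊆ range N, S.card = t ∧ Mono3 c true S) := by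
  classical
  obtain ⟨v, hv, hinj, hch⟩ := reorder c N 2 C (16 * (d * (d + g))) hC hc hN
  have := two_bool s t _ _ d hd (numeric d g C (by omega) hg hC hCg) (fun S => c (S.image v)) hch
  rcases this with ⟨S, hS, hSc, hm⟩ | ⟨S, hS, hSc, hm⟩
  · left
    obtain ⟨h1, h2, h3⟩ := back hN hv hinj hS
    refine ⟨S.image v, h1, by omega, fun T hT hT3 => ?_⟩
    obtain ⟨T', hT', hT'c, rfl⟩ := h3 T hT
    exact hm T' hT' (by omega)
  · right
    obtain ⟨h1, h2, h3⟩ := back hN hv hinj hS
    refine ⟨S.image v, h1, by omega, fun T hT hT3 => ?_⟩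
    obtain ⟨T', hT', hT'c, rfl⟩ := h3 T hT
    exact hm T' hT' (by omega)

/-- three colours, triples -/
theorem three_sep (n N d g C : ℕ) (hn : 3 ≤ n) (hd : (12 * (n - 2)) ^ (3 * Nat.clog 2 n) ≤ d)
    (hg : 1 ≤ g) (hC : 1 ≤ C)
    (hCg : C ≤ 2 ^ g) (hN : 2 ^ (16 * (d * (d + g))) ≤ N) (c : Finset ℕ → Fin 3)
    (hc : Sep c N 2 C) :
    ∃ S ⊆ range N, S.card = n ∧ ∃ i, Mono3 c i S := by
  classical
  have hd1 : 1 ≤ d := le_trans (Nat.one_le_pow _ _ (by omega)) hd
  obtain ⟨v, hv, hinj, hch⟩ := reorder c N 2 C (16 * (d * (d + g))) hC hc hN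
  obtain ⟨S, hS, hSc, i, hm⟩ := three_colours n _ _ d hn hd (numeric d g C hd1 hg hC hCg)
    (fun S => c (S.image v)) hch
  obtain ⟨h1, h2, h3⟩ := back hN hv hinj hS
  refine ⟨S.image v, h1, by omega, i, fun T hT hT3 => ?_⟩
  obtain ⟨T', hT', hT'c, rfl⟩ := h3 T hT
  exact hm T' hT' (by omega)

end Pool.Agent.W2helper90.FD
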