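import Mathlib

/-!
# Two points separated by few functions

A weighted sampling argument (as in the theorem of Chazelle and Welzl on spanning trees with low
crossing number).
-/

set_option autoImplicit false

namespace Pool.Agent.W2helper90.FD

open Finset

variable {ι α : Type}

open Classical in
theorem close_pair (F : Finset ι) (s : ι → ℕ → α) (C ℓ : ℕ) (hC : 1 ≤ C) (X : Finset ℕ)
    (hX : 2 ≤ X.card) (hXN : X.card ≤ 2 ^ ℓ)
    (hsep : ∀ G ⊆ F, G.Nonempty → ∀ Y ⊆ X,
      (∀ x ∈ Y, ∀ y ∈ Y, x ≠ y → ∃ i ∈ G, s i x ≠ s i y) → Y.card ≤ C * G.card)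
    (w : ι → ℕ) :
    ∃ x ∈ X, ∃ y ∈ X, x ≠ y ∧
      X.card * (∑ i ∈ F with s i x ≠ s i y, w i) ≤ 4 * C * ℓ * ∑ i ∈ F, w i := by
  classical
  by_contra hcon
  push Not at hcon
  set W := ∑ i ∈ F, w i with hW
  set n := X.card with hn
  have hℓ : 1 ≤ ℓ := by
    by_contra h
    have : ℓ = 0 := by omega
    rw [this] at hXN
    omega
  obtain ⟨x₀, hx₀, y₀, hy₀, hxy₀⟩ := one_lt_card.1 (show 1 < X.card by omega)
  have h0 := hcon x₀ hx₀ y₀ hy₀ hxy₀
  have hsub : ∀ x y, (∑ i ∈ F with s i x ≠ s i y, w i) ≤ W := fun x y =>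
    sum_le_sum_of_subset (filter_subset _ _)
  have hWpos : 0 < W := by
    rcases Nat.eq_zero_or_pos W with h | h
    · have := hsub x₀ y₀
      rw [h] at this h0
      simp only [Nat.le_zero] at this
      rw [this] at h0
      simp at h0
    · exact h
  have hbig : 4 * C * ℓ < n := by
    have h1 : 4 * C * ℓ * W < n * W := lt_of_lt_of_le h0 (Nat.mul_le_mul_left _ (hsub _ _))
    exact Nat.lt_of_mul_lt_mul_right h1
  have h4C : 4 * C ≤ 4 * C * ℓ := Nat.le_mul_of_pos_right _ hℓ
  set m := (n - 1) / C with hm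
  have hCm : C * m < n := by
    have := Nat.mul_div_le (n - 1) C
    rw [← hm] at this
    omega
  have h2Cm : n ≤ 2 * (C * m) := by
    have := Nat.lt_mul_div_succ (n - 1) (show 0 < C by omega)
    have e : C * ((n - 1) / C + 1) = C * m + C := by rw [hm]; ring
    omega
  have hm1 : 1 ≤ m := by
    rcases Nat.eq_zero_or_pos m with h | h
    · rw [h, Nat.mul_zero] at h2Cm
      omega
    · exact h
  -- every sample leaves a pair unseparated
  have hpair : ∀ g ∈ Fintype.piFinset (fun _ : Fin m => F),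
      ∃ p ∈ X.offDiag, ∀ j, s (g j) p.1 = s (g j) p.2 := by
    intro g hg
    rw [Fintype.mem_piFinset] at hg
    by_contra hno
    push Not at hno
    have h1 : (univ.image g).card ≤ m := by
      refine card_image_le.trans ?_
      simp
    have h2 := hsep (univ.image g) (by
      intro i hi
      obtain ⟨j, -, rfl⟩ := mem_image.1 hi
      exact hg j) ⟨g ⟨0, hm1⟩, mem_image_of_mem _ (mem_univ _)⟩ X Subset.rfl (by
      intro x hx y hy hxy
      obtain ⟨j, hj⟩ := hno (x, y) (mem_offDiag.2 ⟨hx, hy, hxy⟩)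
      exact ⟨g j, mem_image_of_mem _ (mem_univ _), hj⟩)
    have h3 : C * (univ.image g).card ≤ C * m := Nat.mul_le_mul_left _ h1
    omega
  -- count
  have hsum : W ^ m = ∑ g ∈ Fintype.piFinset (fun _ : Fin m => F), ∏ j, w (g j) := by
    rw [← Finset.prod_univ_sum]
    rw [prod_const, card_univ, Fintype.card_fin]
  have hle : W ^ m ≤ ∑ p ∈ X.offDiag, (∑ i ∈ F with s i p.1 = s i p.2, w i) ^ m := by
    rw [hsum]
    calc ∑ g ∈ Fintype.piFinset (fun _ : Fin m => F), ∏ j, w (g j)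
        ≤ ∑ g ∈ Fintype.piFinset (fun _ : Fin m => F), ∑ p ∈ X.offDiag,
            if ∀ j, s (g j) p.1 = s (g j) p.2 then ∏ j, w (g j) else 0 := by
          apply sum_le_sum
          intro g hg
          obtain ⟨p, hp, hpj⟩ := hpair g hg
          refine le_trans ?_ (single_le_sum (fun _ _ => Nat.zero_le _) hp)
          rw [if_pos hpj]
      _ = ∑ p ∈ X.offDiag, ∑ g ∈ Fintype.piFinset (fun _ : Fin m => F),
            if ∀ j, s (g j) p.1 = s (g j) p.2 then ∏ j, w (g j) else 0 := sum_comm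
      _ = ∑ p ∈ X.offDiag, (∑ i ∈ F with s i p.1 = s i p.2, w i) ^ m := by
          apply sum_congr rfl
          intro p _
          have e1 : (∑ i ∈ F with s i p.1 = s i p.2, w i) ^ m =
              ∑ g ∈ Fintype.piFinset (fun _ : Fin m => F.filter fun i => s i p.1 = s i p.2),
                ∏ j, w (g j) := by
            rw [← Finset.prod_univ_sum]
            rw [prod_const, card_univ, Fintype.card_fin]
          rw [e1, ← sum_filter]
          apply sum_congr _ (fun _ _ => rfl)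
          ext g
          simp only [mem_filter, Fintype.mem_piFinset]
          constructor
          · exact fun h j => ⟨h.1 j, h.2 j⟩
          · exact fun h => ⟨fun j => (h j).1, fun j => (h j).2⟩
  -- the weight of the functions that do not separate is small
  have hnR : (0 : ℝ) < n := by
    have : 0 < n := by omega
    exact_mod_cast this
  set ε : ℝ := 4 * C * ℓ / n with hε
  have hε1 : ε < 1 := by
    rw [hε, div_lt_one hnR]
    exact_mod_cast hbig
  have hsmall : ∀ p ∈ X.offDiag, ((∑ i ∈ F with s i p.1 = s i p.2, w i : ℕ) : ℝ) ≤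
      (1 - ε) * W := by
    intro p hp
    obtain ⟨h1, h2, h3⟩ := mem_offDiag.1 hp
    have h4 := hcon p.1 h1 p.2 h2 h3
    have h5 : (∑ i ∈ F with s i p.1 = s i p.2, w i) + (∑ i ∈ F with s i p.1 ≠ s i p.2, w i) =
        W := sum_filter_add_sum_filter_not F (fun i => s i p.1 = s i p.2) w
    have h5' : ((∑ i ∈ F with s i p.1 = s i p.2, w i : ℕ) : ℝ) +
        ((∑ i ∈ F with s i p.1 ≠ s i p.2, w i : ℕ) : ℝ) = W := by exact_mod_cast h5
    have h4' : (4 * C * ℓ : ℝ) * W < n * ((∑ i ∈ F with s i p.1 ≠ s i p.2, w i : ℕ) : ℝ) := by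
      exact_mod_cast h4
    have h6 : ε * W ≤ ((∑ i ∈ F with s i p.1 ≠ s i p.2, w i : ℕ) : ℝ) := by
      rw [hε, div_mul_eq_mul_div, div_le_iff₀ hnR]
      linarith
    linarith
  have hfinal : ((W : ℝ)) ^ m ≤ (n : ℝ) ^ 2 * ((1 - ε) * W) ^ m := by
    have h1 : ((W ^ m : ℕ) : ℝ) ≤
        ((∑ p ∈ X.offDiag, (∑ i ∈ F with s i p.1 = s i p.2, w i) ^ m : ℕ) : ℝ) := by
      exact_mod_cast hle
    push_cast at h1
    refine h1.trans ?_
    calc ∑ p ∈ X.offDiag, (∑ i ∈ F with s i p.1 = s i p.2, (w i : ℝ)) ^ m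
        ≤ ∑ _p ∈ X.offDiag, ((1 - ε) * W) ^ m := by
          apply sum_le_sum
          intro p hp
          have := hsmall p hp
          push_cast at this
          exact pow_le_pow_left₀ (sum_nonneg (fun _ _ => Nat.cast_nonneg _)) this m
      _ = (X.offDiag.card : ℝ) * ((1 - ε) * W) ^ m := by rw [sum_const, nsmul_eq_mul]
      _ ≤ (n : ℝ) ^ 2 * ((1 - ε) * W) ^ m := by
          have h2 : X.offDiag.card ≤ n ^ 2 := by
            rw [offDiag_card, ← hn, pow_two]
            exact Nat.sub_le _ _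
          have h3 : 0 ≤ ((1 - ε) * W) ^ m := by
            apply pow_nonneg
            apply mul_nonneg (by linarith) (Nat.cast_nonneg _)
          have h4 : (X.offDiag.card : ℝ) ≤ (n : ℝ) ^ 2 := by exact_mod_cast h2
          exact mul_le_mul_of_nonneg_right h4 h3
  have hWR : (0 : ℝ) < (W : ℝ) ^ m := by positivity
  have h1 : (1 : ℝ) ≤ (n : ℝ) ^ 2 * (1 - ε) ^ m := by
    rw [mul_pow, ← mul_assoc] at hfinal
    exact (le_mul_iff_one_le_left hWR).1 hfinal
  have h2 : (1 - ε) ^ m ≤ Real.exp (-(2 * ℓ : ℝ)) := by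
    have h3 : (1 - ε) ≤ Real.exp (-ε) := by
      have := Real.add_one_le_exp (-ε)
      linarith
    calc (1 - ε) ^ m ≤ (Real.exp (-ε)) ^ m := pow_le_pow_left₀ (by linarith) h3 m
      _ = Real.exp (-(ε * m)) := by
          rw [← Real.exp_nat_mul]
          ring_nf
      _ ≤ Real.exp (-(2 * ℓ : ℝ)) := by
          apply Real.exp_le_exp.2
          have h4 : (2 * ℓ : ℝ) ≤ ε * m := by
            rw [hε, div_mul_eq_mul_div, le_div_iff₀ hnR]
            have h5 : (n : ℝ) ≤ 2 * (C * m) := by exact_mod_cast h2Cm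
            have h6 : (0 : ℝ) ≤ ℓ := Nat.cast_nonneg _
            nlinarith
          linarith
  have h3 : (n : ℝ) ^ 2 < Real.exp (2 * ℓ : ℝ) := by
    have h4 : (n : ℝ) ≤ 2 ^ ℓ := by exact_mod_cast hXN
    have h5 : (2 : ℝ) < Real.exp 1 := by
      have := Real.exp_one_gt_d9
      linarith
    have h6 : (2 : ℝ) ^ ℓ < (Real.exp 1) ^ ℓ := pow_lt_pow_left₀ h5 (by norm_num) (by omega)
    have h7 : Real.exp (2 * ℓ : ℝ) = ((Real.exp 1) ^ ℓ) ^ 2 := by
      rw [← pow_mul, ← Real.exp_nat_mul]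
      push_cast
      ring_nf
    rw [h7]
    exact pow_lt_pow_left₀ (lt_of_le_of_lt h4 h6) hnR.le (by norm_num)
  have h4 : (n : ℝ) ^ 2 * (1 - ε) ^ m < 1 := by
    calc (n : ℝ) ^ 2 * (1 - ε) ^ m ≤ (n : ℝ) ^ 2 * Real.exp (-(2 * ℓ : ℝ)) := by gcongr
      _ < Real.exp (2 * ℓ : ℝ) * Real.exp (-(2 * ℓ : ℝ)) := by
          apply mul_lt_mul_of_pos_right h3 (Real.exp_pos _)
      _ = 1 := by rw [← Real.exp_add]; simp
  linarith

end Pool.Agent.W2helper90.FD
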