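import Pool.Agent.W2helper90.FD.Cells
import Pool.Agent.W2helper90.OA.Tower

/-!
# All uniformities, asymptotics, and the example with four colours
-/

set_option autoImplicit false

namespace Pool.Agent.W2helper90.FD

open Finset Pool.Agent.TH138.NF Pool.Agent.W2helper90.FC

/-- the number of vertices -/
def Rc (B : ℕ) : ℕ → ℕ
  | 0 => B
  | i + 1 => (2 * 2 ^ ((i + 3) * Rc B i ^ (i + 2))) ^ Rc B i

theorem sep_rado {κ : Type} {c : Finset ℕ → κ} {N t w r C : ℕ} {v : ℕ → ℕ} (hw : w < N)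
    (hinj : ∀ i < t, ∀ j < t, v i = v j → i = j) (hvw : ∀ i < t, v i < w)
    (hc : Sep c N (r + 1) C) : Sep (fun S => c (insert w (S.image v))) t r C := by
  classical
  intro 𝒜 hne h𝒜 Y hY hYs
  have hYi : Set.InjOn v Y := fun a ha b hb hab =>
    hinj a (mem_range.1 (hY ha)) b (mem_range.1 (hY hb)) hab
  have hwn : ∀ A ⊆ range t, w ∉ A.image v := by
    intro A hA hmem
    obtain ⟨a, ha, h⟩ := mem_image.1 hmem
    exact (hvw a (mem_range.1 (hA ha))).ne h
  have key : ∀ A ∈ 𝒜, ∀ x < t, tr (fun S => c (insert w (S.image v))) A x =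
      tr c (insert w (A.image v)) (v x) := by
    intro A hA x hx
    have hAt := (h𝒜 A hA).1
    unfold tr
    have hiff : x ∈ A ↔ v x ∈ insert w (A.image v) := by
      constructor
      · exact fun h => mem_insert_of_mem (mem_image_of_mem _ h)
      · intro h
        rw [mem_insert, mem_image] at h
        rcases h with h | ⟨a, ha, h⟩
        · exact absurd h (hvw x hx).ne
        · exact hinj a (mem_range.1 (hAt ha)) x hx h ▸ ha
    by_cases hxA : x ∈ A
    · rw [if_pos hxA, if_pos (hiff.1 hxA)]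
    · rw [if_neg hxA, if_neg (fun h => hxA (hiff.2 h))]
      simp only [image_insert]
      rw [Finset.insert_comm]
  have h1 := hc (𝒜.image fun A => insert w (A.image v)) (hne.image _) (by
    intro A hA
    obtain ⟨A', hA', rfl⟩ := mem_image.1 hA
    obtain ⟨a1, a2⟩ := h𝒜 A' hA'
    constructor
    · intro x hx
      rw [mem_insert, mem_image] at hx
      rw [mem_range]
      rcases hx with rfl | ⟨a, ha, rfl⟩
      · exact hw
      · exact (hvw a (mem_range.1 (a1 ha))).trans hw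
    · rw [card_insert_of_notMem (hwn A' a1), card_image_of_injOn, a2]
      intro a ha b hb hab
      exact hinj a (mem_range.1 (a1 ha)) b (mem_range.1 (a1 hb)) hab)
    (Y.image v) (by
      intro x hx
      obtain ⟨a, ha, rfl⟩ := mem_image.1 hx
      exact mem_range.2 ((hvw a (mem_range.1 (hY ha))).trans hw)) (by
      intro x hx y hy hxy
      obtain ⟨a, ha, rfl⟩ := mem_image.1 hx
      obtain ⟨b, hb, rfl⟩ := mem_image.1 hy
      obtain ⟨A, hA, hAne⟩ := hYs a ha b hb (fun h => hxy (by rw [h]))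
      refine ⟨_, mem_image_of_mem _ hA, ?_⟩
      rw [← key A hA a (mem_range.1 (hY ha)), ← key A hA b (mem_range.1 (hY hb))]
      exact hAne)
  rw [card_image_of_injOn hYi] at h1
  exact h1.trans (Nat.mul_le_mul_left _ card_image_le)

theorem sep_all (n g C : ℕ) (hg : 1 ≤ g) (hC : 1 ≤ C) (hCg : C ≤ 2 ^ g) (i : ℕ) :
    ∀ (N : ℕ) (c : Finset ℕ → Bool), Rc (2 ^ (16 * (dd n * (dd n + g)))) i ≤ N →
      Sep c N (i + 2) C → ∃ S ⊆ range N, S.card = n ∧ Homogeneous (i + 3) c S := by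
  classical
  induction i with
  | zero =>
    intro N c hN hc
    rcases two_sep n n N (dd n) g C (Nat.lt_succ_self _) hg hC hCg hN c hc with
      ⟨S, hS, hcard, hm⟩ | ⟨S, hS, hcard, hm⟩
    · exact ⟨S, hS, hcard, homogeneous_of_mono hm⟩
    · exact ⟨S, hS, hcard, homogeneous_of_mono hm⟩
  | succ i ih =>
    intro N c hN hc
    set t := Rc (2 ^ (16 * (dd n * (dd n + g)))) i with ht
    obtain ⟨v, w, hw, hvm, hvw, hcol⟩ := rado c (i + 2) t N (by
      rw [Fintype.card_bool]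
      exact hN)
    have hinj : ∀ a < t, ∀ b < t, v a = v b → a = b := by
      intro a ha b hb hab
      rcases lt_trichotomy a b with h | h | h
      · exact absurd hab (hvm a b h hb).ne
      · exact h
      · exact absurd hab (hvm b a h ha).ne'
    obtain ⟨S, hS, hcard, hhom⟩ := ih t (fun S => c (insert w (S.image v))) le_rfl
      (sep_rado hw hinj hvw hc)
    have hSinj : ∀ A ⊆ S, Set.InjOn v A := fun A hA a ha b hb hab =>
      hinj a (mem_range.1 (hS (hA ha))) b (mem_range.1 (hS (hA hb))) hab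
    refine ⟨S.image v, ?_, ?_, ?_⟩
    · intro x hx
      rw [mem_image] at hx
      obtain ⟨a, ha, rfl⟩ := hx
      exact mem_range.2 ((hvw a (mem_range.1 (hS ha))).trans hw)
    · rw [card_image_of_injOn (hSinj S Subset.rfl), hcard]
    · have hone : ∀ A ⊆ S.image v, A.card = i + 1 + 3 → ∃ A' ⊆ S, A'.card = i + 3 ∧
          c A = c (insert w (A'.image v)) := by
        intro A hA hAc
        obtain ⟨B, hB, rfl⟩ := Finset.subset_image_iff.1 hA
        have hBS : B ⊆ S := by exact_mod_cast hB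
        have hBc : B.card = i + 2 + 2 := by
          rw [card_image_of_injOn (hSinj B hBS)] at hAc
          omega
        have hne : B.Nonempty := card_pos.1 (by omega)
        refine ⟨B.erase (B.max' hne), (erase_subset _ _).trans hBS, ?_, ?_⟩
        · rw [card_erase_of_mem (B.max'_mem hne), hBc]
          omega
        · exact hcol B (hBS.trans hS) hBc _ (B.max'_mem hne) (fun i hi => B.le_max' i hi)
      intro A hA B hB hAc hBc
      obtain ⟨A', hA', hA'c, hA''⟩ := hone A hA hAc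
      obtain ⟨B', hB', hB'c, hB''⟩ := hone B hB hBc
      rw [hA'', hB'']
      exact hhom A' hA' B' hB' hA'c hB'c

/-- the constants -/
def Kr : ℕ → ℕ
  | 0 => 1
  | i + 1 => (2 * i + 7) * Kr i

theorem Kr_pos (i : ℕ) : 1 ≤ Kr i := by
  induction i with
  | zero => exact le_rfl
  | succ i ih => exact Nat.mul_pos (by omega) ih

theorem Rc_pos {B : ℕ} (hB : 1 ≤ B) (i : ℕ) : 1 ≤ Rc B i := by
  cases i with
  | zero => exact hB
  | succ i => exact Nat.one_le_pow _ _ (by positivity)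

theorem Rc_le {B : ℕ} (hB : 1 ≤ B) {x : ℝ} (hx : 1 ≤ x) (h0 : (B : ℝ) ≤ (2 : ℝ) ^ x) (i : ℕ) :
    (Rc B i : ℝ) ≤ tow (i + 1) (Kr i * x) := by
  induction i with
  | zero =>
    have : ((Kr 0 : ℕ) : ℝ) * x = x := by simp [Kr]
    rw [show tow (0 + 1) (((Kr 0 : ℕ) : ℝ) * x) = 2 ^ (((Kr 0 : ℕ) : ℝ) * x) from rfl, this]
    exact h0
  | succ i ih =>
    have hC : (1 : ℝ) ≤ Kr i := by exact_mod_cast Kr_pos i
    have hCy : 1 ≤ Kr i * x := by nlinarith
    set T := Rc B i with hT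
    have hT1 : 1 ≤ T := Rc_pos hB i
    have e1 : Rc B (i + 1) ≤ 2 ^ (2 ^ (i + 4) * T ^ (i + 3)) := by
      simp only [Rc, ← hT]
      rw [← pow_succ', ← pow_mul]
      apply Nat.pow_le_pow_right (by norm_num)
      have h3 : 1 ≤ T ^ (i + 2) := Nat.one_le_pow _ _ hT1
      have h4 : i + 4 + 1 ≤ 2 ^ (i + 4) := Nat.lt_two_pow_self
      calc ((i + 3) * T ^ (i + 2) + 1) * T ≤ ((i + 3) * T ^ (i + 2) + T ^ (i + 2)) * T := by
            gcongr
        _ = (i + 4) * T ^ (i + 3) := by ring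
        _ ≤ 2 ^ (i + 4) * T ^ (i + 3) := by
            apply Nat.mul_le_mul_right
            omega
    have e2 : ((2 ^ (i + 4) * T ^ (i + 3) : ℕ) : ℝ) ≤
        tow (i + 1) (((2 * i + 7 : ℕ) : ℝ) * (Kr i * x)) := by
      rw [Nat.cast_mul, Nat.cast_pow, Nat.cast_pow, Nat.cast_ofNat]
      have h5 : (T : ℝ) ≤ 2 ^ tow i (Kr i * x) := ih
      have h6 : (T : ℝ) ^ (i + 3) ≤ (2 : ℝ) ^ (((i : ℝ) + 3) * tow i (Kr i * x)) := by
        calc (T : ℝ) ^ (i + 3) ≤ (2 ^ tow i (Kr i * x)) ^ (i + 3) := by gcongr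
          _ = _ := by
            rw [← Real.rpow_natCast, ← Real.rpow_mul (by norm_num)]
            push_cast
            ring_nf
      have h7 : (2 : ℝ) ^ (i + 4) = (2 : ℝ) ^ ((i : ℝ) + 4) := by
        rw [← Real.rpow_natCast]
        push_cast
        rfl
      have h8 : 1 ≤ tow i (Kr i * x) := hCy.trans (le_tow _ _)
      have hi : (0 : ℝ) ≤ i := Nat.cast_nonneg i
      calc (2 : ℝ) ^ (i + 4) * (T : ℝ) ^ (i + 3)
          ≤ (2 : ℝ) ^ ((i : ℝ) + 4) * (2 : ℝ) ^ (((i : ℝ) + 3) * tow i (Kr i * x)) := by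
            rw [h7]; gcongr
        _ = (2 : ℝ) ^ (((i : ℝ) + 4) + ((i : ℝ) + 3) * tow i (Kr i * x)) := by
            rw [← Real.rpow_add (by norm_num)]
        _ ≤ (2 : ℝ) ^ tow i (((2 * i + 7 : ℕ) : ℝ) * (Kr i * x)) := by
            apply Real.rpow_le_rpow_of_exponent_le (by norm_num)
            refine le_trans ?_ (mul_tow (2 * i + 7) (by omega) i hCy)
            push_cast
            nlinarith
        _ = _ := rfl
    have e3 : (Rc B (i + 1) : ℝ) ≤ (2 : ℝ) ^ ((2 ^ (i + 4) * T ^ (i + 3) : ℕ) : ℝ) := by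
      rw [Real.rpow_natCast]
      exact_mod_cast e1
    have e4 : ((Kr (i + 1) : ℕ) : ℝ) * x = ((2 * i + 7 : ℕ) : ℝ) * (Kr i * x) := by
      have : Kr (i + 1) = (2 * i + 7) * Kr i := rfl
      rw [this]
      push_cast
      ring
    rw [e4]
    refine e3.trans ?_
    show _ ≤ (2 : ℝ) ^ tow (i + 1) _
    exact Real.rpow_le_rpow_of_exponent_le (by norm_num) e2

open Classical in
/-- The number of cells into which the members of `𝒜` divide the vertex set `{0, …, N - 1}`: two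
vertices `z`, `z'` are in the same cell if for every `A ∈ 𝒜` either both are elements of `A`, or
both are outside `A` and `A ∪ {z}`, `A ∪ {z'}` have the same colour. -/
noncomputable def cells {κ : Type} (c : Finset ℕ → κ) (N : ℕ) (𝒜 : Finset (Finset ℕ)) : ℕ :=
  ((range N).image fun z => fun A : Finset ℕ =>
    if A ∈ 𝒜 ∧ z ∉ A then some (c (insert z A)) else none).card

theorem sep_of_cells {κ : Type} {c : Finset ℕ → κ} {N r C : ℕ}
    (h : ∀ 𝒜 : Finset (Finset ℕ), 𝒜.Nonempty → (∀ A ∈ 𝒜, A ⊆ range N ∧ A.card = r) →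
      cells c N 𝒜 ≤ C * 𝒜.card) : Sep c N r C := by
  classical
  intro 𝒜 hne h𝒜 Y hY hYs
  refine le_trans ?_ (h 𝒜 hne h𝒜)
  unfold cells
  rw [← card_image_of_injOn (s := Y) (f := fun z => fun A : Finset ℕ =>
    if A ∈ 𝒜 ∧ z ∉ A then some (c (insert z A)) else none)]
  · exact card_le_card (image_subset_image hY)
  · intro x hx y hy hxy
    by_contra hne
    obtain ⟨A, hA, hAne⟩ := hYs x hx y hy hne
    apply hAne
    have := congrFun hxy A
    simp only [hA, true_and] at this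
    unfold tr
    by_cases h1 : x ∈ A
    · by_cases h2 : y ∈ A
      · rw [if_pos h1, if_pos h2]
      · simp [h1, h2] at this
    · by_cases h2 : y ∈ A
      · simp [h1, h2] at this
      · simp only [h1, h2, not_false_eq_true, if_true] at this
        rw [if_neg h1, if_neg h2]
        exact this

open Classical in
theorem card_image_le_changes {β : Type} (f : ℕ → β) (N : ℕ) :
    ((range N).image f).card ≤ 1 + ((range N).filter fun z => z + 1 < N ∧ f z ≠ f (z + 1)).card := by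
  classical
  induction N with
  | zero => simp
  | succ N ih =>
    rcases Nat.eq_zero_or_pos N with rfl | hN
    · simp
    · have hmono : ((range N).filter fun z => z + 1 < N ∧ f z ≠ f (z + 1)) ⊆
          ((range (N + 1)).filter fun z => z + 1 < N + 1 ∧ f z ≠ f (z + 1)) := by
        intro z hz
        rw [mem_filter, mem_range] at hz ⊢
        exact ⟨by omega, by omega, hz.2.2⟩
      rw [range_add_one, image_insert]
      by_cases hmem : f N ∈ (range N).image f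
      · rw [insert_eq_of_mem hmem]
        refine ih.trans ?_
        rw [← range_add_one]
        have := card_le_card hmono
        omega
      · rw [card_insert_of_notMem hmem]
        have hlast : N - 1 ∈ ((range (N + 1)).filter fun z => z + 1 < N + 1 ∧ f z ≠ f (z + 1)) := by
          rw [mem_filter, mem_range]
          refine ⟨by omega, by omega, ?_⟩
          intro h
          apply hmem
          rw [Nat.sub_add_cancel hN] at h
          rw [← h]
          exact mem_image_of_mem _ (mem_range.2 (by omega))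
        have hnot : N - 1 ∉ ((range N).filter fun z => z + 1 < N ∧ f z ≠ f (z + 1)) := by
          rw [mem_filter]
          intro h
          omega
        have h1 : insert (N - 1) ((range N).filter fun z => z + 1 < N ∧ f z ≠ f (z + 1)) ⊆
            ((range (N + 1)).filter fun z => z + 1 < N + 1 ∧ f z ≠ f (z + 1)) := by
          intro z hz
          rw [mem_insert] at hz
          rcases hz with rfl | hz
          · exact hlast
          · exact hmono hz
        have h2 := card_le_card h1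
        rw [card_insert_of_notMem hnot] at h2
        rw [← range_add_one]
        omega

theorem cells_le {κ : Type} (c : Finset ℕ → κ) (N r k : ℕ) (𝒜 : Finset (Finset ℕ))
    (hne : 𝒜.Nonempty) (h𝒜 : ∀ A ∈ 𝒜, A ⊆ range N ∧ A.card = r)
    (hk : ∀ A ⊆ range N, A.card = r → changes c N A ≤ k) :
    cells c N 𝒜 ≤ (k + 2 * r + 1) * 𝒜.card := by
  classical
  unfold cells
  set f : ℕ → Finset ℕ → Option κ := fun z => fun A : Finset ℕ =>
    if A ∈ 𝒜 ∧ z ∉ A then some (c (insert z A)) else none with hf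
  refine (card_image_le_changes f N).trans ?_
  have hsub : ((range N).filter fun z => z + 1 < N ∧ f z ≠ f (z + 1)) ⊆
      𝒜.biUnion fun A => ((range N).filter fun z => z + 1 < N ∧ z ∉ A ∧ z + 1 ∉ A ∧
        c (insert z A) ≠ c (insert (z + 1) A)) ∪ (A ∪ A.image fun x => x - 1) := by
    intro z hz
    rw [mem_filter] at hz
    obtain ⟨h1, h2, h3⟩ := hz
    have h4 : ∃ A, f z A ≠ f (z + 1) A := by
      by_contra hcon
      push Not at hcon
      exact h3 (funext hcon)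
    obtain ⟨A, hA⟩ := h4
    have hA𝒜 : A ∈ 𝒜 := by
      by_contra h
      apply hA
      simp [hf, h]
    rw [mem_biUnion]
    refine ⟨A, hA𝒜, ?_⟩
    rw [mem_union, mem_union]
    by_cases g1 : z ∈ A
    · exact Or.inr (Or.inl g1)
    · by_cases g2 : z + 1 ∈ A
      · exact Or.inr (Or.inr (mem_image.2 ⟨z + 1, g2, by omega⟩))
      · left
        rw [mem_filter]
        refine ⟨h1, h2, g1, g2, ?_⟩
        intro h
        apply hA
        simp only [hf, hA𝒜, g1, g2, not_false_eq_true, and_self, if_true, h]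
  have hcard := card_le_card hsub
  have hbi : (𝒜.biUnion fun A => ((range N).filter fun z => z + 1 < N ∧ z ∉ A ∧ z + 1 ∉ A ∧
        c (insert z A) ≠ c (insert (z + 1) A)) ∪ (A ∪ A.image fun x => x - 1)).card ≤
      𝒜.card * (k + 2 * r) := by
    apply card_biUnion_le_card_mul
    intro A hA
    obtain ⟨a1, a2⟩ := h𝒜 A hA
    refine (card_union_le _ _).trans ?_
    have b1 : ((range N).filter fun z => z + 1 < N ∧ z ∉ A ∧ z + 1 ∉ A ∧
        c (insert z A) ≠ c (insert (z + 1) A)).card ≤ k := by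
      refine le_trans ?_ (hk A a1 a2)
      apply card_le_changes
      intro z hz
      exact (mem_filter.1 hz).2
    have b2 := card_union_le A (A.image fun x => x - 1)
    have b3 : (A.image fun x => x - 1).card ≤ A.card := card_image_le
    omega
  have h1 : 1 ≤ 𝒜.card := card_pos.2 hne
  calc 1 + ((range N).filter fun z => z + 1 < N ∧ f z ≠ f (z + 1)).card
      ≤ 𝒜.card + 𝒜.card * (k + 2 * r) := by omega
    _ = (k + 2 * r + 1) * 𝒜.card := by ring

theorem one_le_log (C : ℕ) (hC : 1 ≤ C) : 1 ≤ Real.logb 2 ((C : ℝ) + 1) := by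
  rw [Real.le_logb_iff_rpow_le (by norm_num) (by positivity)]
  have : (1 : ℝ) ≤ C := by exact_mod_cast hC
  simp only [Real.rpow_one]
  linarith

/-- the exponent in the base case -/
theorem base_le (n C : ℕ) (hn : 2 ≤ n) (hC : 1 ≤ C) :
    ((2 ^ (16 * (dd n * (dd n + Nat.clog 2 (C + 1)))) : ℕ) : ℝ) ≤
      (2 : ℝ) ^ (32 * ((n : ℝ) ^ 4 + (n : ℝ) ^ 2 * Real.logb 2 ((C : ℝ) + 1))) := by
  push_cast
  rw [← Real.rpow_natCast]
  apply Real.rpow_le_rpow_of_exponent_le (by norm_num)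
  push_cast
  have h1 : (dd n : ℝ) ≤ (n : ℝ) ^ 2 := by exact_mod_cast dd_le hn
  have hL := one_le_log C hC
  set L := Real.logb 2 ((C : ℝ) + 1) with hLd
  have hg : (Nat.clog 2 (C + 1) : ℝ) ≤ 2 * L := by
    have h2 : 2 ^ (Nat.clog 2 (C + 1) - 1) < C + 1 :=
      Nat.pow_pred_clog_lt_self (by norm_num) (by omega)
    have h3 : ((Nat.clog 2 (C + 1) - 1 : ℕ) : ℝ) ≤ L := by
      rw [hLd, Real.le_logb_iff_rpow_le (by norm_num) (by positivity), Real.rpow_natCast]
      exact_mod_cast h2.le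
    have h4 : (Nat.clog 2 (C + 1) : ℝ) ≤ ((Nat.clog 2 (C + 1) - 1 : ℕ) : ℝ) + 1 := by
      have : Nat.clog 2 (C + 1) ≤ (Nat.clog 2 (C + 1) - 1) + 1 := by omega
      exact_mod_cast this
    linarith
  have h5 : (dd n : ℝ) * (dd n + Nat.clog 2 (C + 1)) ≤ (n : ℝ) ^ 2 * ((n : ℝ) ^ 2 + 2 * L) := by
    gcongr
  have h6 : 0 ≤ (n : ℝ) ^ 2 * (n : ℝ) ^ 2 := by positivity
  nlinarith

theorem two_cells (i : ℕ) : ∃ K : ℝ, ∀ n C N : ℕ, 2 ≤ n → 1 ≤ C →
    tow (i + 1) (K * ((n : ℝ) ^ 4 + (n : ℝ) ^ 2 * Real.logb 2 ((C : ℝ) + 1))) ≤ N →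
    ∀ c : Finset ℕ → Bool, (∀ 𝒜 : Finset (Finset ℕ), 𝒜.Nonempty →
      (∀ A ∈ 𝒜, A ⊆ range N ∧ A.card = i + 2) → cells c N 𝒜 ≤ C * 𝒜.card) →
    ∃ S ⊆ range N, S.card = n ∧ Homogeneous (i + 3) c S := by
  refine ⟨Kr i * 32, fun n C N hn hC hN c hc => ?_⟩
  have hx : 1 ≤ 32 * ((n : ℝ) ^ 4 + (n : ℝ) ^ 2 * Real.logb 2 ((C : ℝ) + 1)) := by
    have h1 : (1 : ℝ) ≤ n := by exact_mod_cast (by omega : 1 ≤ n)
    have h2 := one_le_log C hC
    have h3 : (1 : ℝ) ≤ (n : ℝ) ^ 4 := one_le_pow₀ h1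
    have h4 : 0 ≤ (n : ℝ) ^ 2 * Real.logb 2 ((C : ℝ) + 1) := by positivity
    linarith
  have h1 := Rc_le (Nat.one_le_pow _ _ (by norm_num)) hx (base_le n C hn hC) i
  have he : (Kr i : ℝ) * (32 * ((n : ℝ) ^ 4 + (n : ℝ) ^ 2 * Real.logb 2 ((C : ℝ) + 1))) =
      Kr i * 32 * ((n : ℝ) ^ 4 + (n : ℝ) ^ 2 * Real.logb 2 ((C : ℝ) + 1)) := by ring
  rw [he] at h1
  have h2 : Rc (2 ^ (16 * (dd n * (dd n + Nat.clog 2 (C + 1))))) i ≤ N := by
    exact_mod_cast h1.trans hN
  have hg1 : 1 ≤ Nat.clog 2 (C + 1) := Nat.clog_pos (by norm_num) (by omega)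
  have hg2 : C ≤ 2 ^ Nat.clog 2 (C + 1) := by
    have := Nat.le_pow_clog (by norm_num : 1 < 2) (C + 1)
    omega
  exact sep_all n _ C hg1 hC hg2 i N c h2 (sep_of_cells hc)

theorem many_cells (i : ℕ) (ε' ε : ℝ) (h0 : 0 < ε') (h1 : ε' < ε) :
    ∃ n₀ : ℕ, ∀ n N : ℕ, n₀ ≤ n → tow (i + 2) (ε * n) ≤ N → ∀ c : Finset ℕ → Bool,
      (∀ S ⊆ range N, S.card = n → ¬ Homogeneous (i + 3) c S) →
      ∃ 𝒜 : Finset (Finset ℕ), 𝒜.Nonempty ∧ (∀ A ∈ 𝒜, A ⊆ range N ∧ A.card = i + 2) ∧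
        (2 : ℝ) ^ ((2 : ℝ) ^ (ε' * n)) * 𝒜.card < cells c N 𝒜 := by
  obtain ⟨K, hK⟩ := two_cells i
  obtain ⟨n₁, hn₁⟩ := nat_le_rpow ((ε - ε') / 5) (by linarith)
  obtain ⟨K', hK'⟩ := exists_nat_gt K
  refine ⟨max n₁ (4 * K' + 2), fun n N hn hN c hc => ?_⟩
  by_contra hcon
  push Not at hcon
  have g1 : n₁ ≤ n := (le_max_left _ _).trans hn
  have g2 : 4 * K' + 2 ≤ n := (le_max_right _ _).trans hn
  have hn2 : 2 ≤ n := by omega
  set M : ℝ := (2 : ℝ) ^ (ε' * n) with hM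
  have hnn : (0 : ℝ) ≤ n := Nat.cast_nonneg n
  have hM1 : 1 ≤ M := Real.one_le_rpow (by norm_num) (by positivity)
  set C := ⌊(2 : ℝ) ^ M⌋₊ with hCd
  have hCM : (C : ℝ) ≤ (2 : ℝ) ^ M := Nat.floor_le (by positivity)
  have h2M : (2 : ℝ) ≤ 2 ^ M := by
    calc (2 : ℝ) = 2 ^ (1 : ℝ) := by norm_num
      _ ≤ 2 ^ M := Real.rpow_le_rpow_of_exponent_le (by norm_num) hM1
  have hC1 : 1 ≤ C := Nat.le_floor (by push_cast; linarith)
  have hcell : ∀ 𝒜 : Finset (Finset ℕ), 𝒜.Nonempty →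
      (∀ A ∈ 𝒜, A ⊆ range N ∧ A.card = i + 2) → cells c N 𝒜 ≤ 2 * C * 𝒜.card := by
    intro 𝒜 hne h𝒜
    have h2 := hcon 𝒜 hne h𝒜
    have h3 : (2 : ℝ) ^ M < C + 1 := Nat.lt_floor_add_one _
    have h4 : (cells c N 𝒜 : ℝ) ≤ (C + 1) * 𝒜.card := by
      refine h2.trans ?_
      gcongr
    have h5 : cells c N 𝒜 ≤ (C + 1) * 𝒜.card := by exact_mod_cast h4
    exact h5.trans (Nat.mul_le_mul_right _ (by omega))
  have hL : Real.logb 2 (((2 * C : ℕ) : ℝ) + 1) ≤ 3 * M := by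
    have hk0 : (0 : ℝ) ≤ C := Nat.cast_nonneg C
    rw [Real.logb_le_iff_le_rpow (by norm_num) (by positivity)]
    have e1 : (2 : ℝ) ^ (3 * M) = 2 ^ M * 2 ^ M * 2 ^ M := by
      rw [← Real.rpow_add (by norm_num), ← Real.rpow_add (by norm_num)]
      ring_nf
    rw [e1]
    push_cast
    set Z := (2 : ℝ) ^ M
    have : 4 * Z ≤ Z * Z * Z := by nlinarith [mul_nonneg (by linarith : 0 ≤ Z) (by nlinarith : 0 ≤ Z * Z - 4)]
    linarith
  have hbig : K * ((n : ℝ) ^ 4 + (n : ℝ) ^ 2 * Real.logb 2 (((2 * C : ℕ) : ℝ) + 1)) ≤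
      (2 : ℝ) ^ (ε * n) := by
    have hn1 : (1 : ℝ) ≤ n := by exact_mod_cast (by omega : 1 ≤ n)
    have hL0 : 0 ≤ Real.logb 2 (((2 * C : ℕ) : ℝ) + 1) :=
      le_trans zero_le_one (one_le_log (2 * C) (by omega))
    have f1 : (n : ℝ) ^ 4 + (n : ℝ) ^ 2 * Real.logb 2 (((2 * C : ℕ) : ℝ) + 1) ≤
        4 * (n : ℝ) ^ 4 * M := by
      have f2 : (n : ℝ) ^ 2 * Real.logb 2 (((2 * C : ℕ) : ℝ) + 1) ≤ (n : ℝ) ^ 4 * (3 * M) := by
        have f3 : (n : ℝ) ^ 2 ≤ (n : ℝ) ^ 4 := pow_le_pow_right₀ hn1 (by norm_num)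
        calc _ ≤ (n : ℝ) ^ 2 * (3 * M) := by gcongr
          _ ≤ _ := by gcongr
      have f4 : (n : ℝ) ^ 4 ≤ (n : ℝ) ^ 4 * M := le_mul_of_one_le_right (by positivity) hM1
      linarith
    have f5 : (n : ℝ) ≤ (2 : ℝ) ^ ((ε - ε') / 5 * n) := hn₁ n g1
    have f6 : (n : ℝ) ^ 5 ≤ (2 : ℝ) ^ ((ε - ε') * n) := by
      calc (n : ℝ) ^ 5 ≤ ((2 : ℝ) ^ ((ε - ε') / 5 * n)) ^ 5 := by gcongr
        _ = _ := by
          rw [← Real.rpow_natCast, ← Real.rpow_mul (by norm_num)]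
          congr 1
          push_cast
          ring
    have f7 : (K' : ℝ) * 4 ≤ n := by
      have : (4 * K' + 2 : ℝ) ≤ n := by exact_mod_cast g2
      linarith
    have f8 : (0 : ℝ) ≤ (n : ℝ) ^ 4 + (n : ℝ) ^ 2 * Real.logb 2 (((2 * C : ℕ) : ℝ) + 1) := by
      positivity
    calc K * ((n : ℝ) ^ 4 + (n : ℝ) ^ 2 * Real.logb 2 (((2 * C : ℕ) : ℝ) + 1))
        ≤ K' * ((n : ℝ) ^ 4 + (n : ℝ) ^ 2 * Real.logb 2 (((2 * C : ℕ) : ℝ) + 1)) :=
          mul_le_mul_of_nonneg_right hK'.le f8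
      _ ≤ K' * (4 * (n : ℝ) ^ 4 * M) := mul_le_mul_of_nonneg_left f1 (Nat.cast_nonneg _)
      _ = (K' * 4) * ((n : ℝ) ^ 4 * M) := by ring
      _ ≤ n * ((n : ℝ) ^ 4 * M) := by gcongr
      _ = (n : ℝ) ^ 5 * M := by ring
      _ ≤ (2 : ℝ) ^ ((ε - ε') * n) * M := by gcongr
      _ = (2 : ℝ) ^ (ε * n) := by
        rw [hM, ← Real.rpow_add (by norm_num)]
        congr 1
        ring
  have := hK n (2 * C) N hn2 (by omega) (by
    refine (tow_mono (i + 1) hbig).trans ?_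
    rw [tow_two]
    exact hN) c hcell
  obtain ⟨S, hS, hSc, hh⟩ := this
  exact hc S hS hSc hh

end Pool.Agent.W2helper90.FD
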