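import Pool.Agent.W2helper90.FD.Close

/-!
# A linear order in which every function has few changes
-/

set_option autoImplicit false

namespace Pool.Agent.W2helper90.FD

open Finset

variable {ι α : Type}

open Classical in
/-- number of changes along a list -/
noncomputable def ch (s : ℕ → α) : List ℕ → ℕ
  | [] => 0
  | [_] => 0
  | a :: b :: t => (if s a = s b then 0 else 1) + ch s (b :: t)

open Classical in
theorem ch_cons (s : ℕ → α) (a b : ℕ) (t : List ℕ) :
    ch s (a :: b :: t) = (if s a = s b then 0 else 1) + ch s (b :: t) := rfl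

theorem ch_single (s : ℕ → α) (a : ℕ) : ch s [a] = 0 := rfl

theorem ch_rev (s : ℕ → α) (t : List ℕ) : ∀ (a : ℕ) (r : List ℕ),
    ch s (t.reverse ++ (a :: r)) = ch s (a :: t) + ch s (a :: r) := by
  classical
  induction t with
  | nil =>
    intro a r
    simp [ch_single]
  | cons a' t' ih =>
    intro a r
    rw [List.reverse_cons, List.append_assoc, List.singleton_append, ih a' (a :: r), ch_cons,
      ch_cons]
    have : (if s a' = s a then 0 else 1) = (if s a = s a' then 0 else 1) := by
      by_cases h : s a = s a'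
      · rw [if_pos h, if_pos h.symm]
      · rw [if_neg h, if_neg (fun h' => h h'.symm)]
    rw [this]
    ring

open Classical in
theorem ch_join (s : ℕ → α) (l₁ l₂ : List ℕ) (h₁ : l₁ ≠ []) (h₂ : l₂ ≠ []) :
    ch s (l₁.reverse ++ l₂) = ch s l₁ + ch s l₂ +
      (if s l₁.headI = s l₂.headI then 0 else 1) := by
  obtain ⟨a, t₁, rfl⟩ := List.exists_cons_of_ne_nil h₁
  obtain ⟨b, t₂, rfl⟩ := List.exists_cons_of_ne_nil h₂
  rw [List.reverse_cons, List.append_assoc, List.singleton_append, ch_rev, ch_cons]
  by_cases h : s a = s b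
  · simp [h]
  · simp [h]
    ring

theorem choose_step (m D : ℕ) : (m + 1) * (m + 1 + D).choose D = (m + 1 + D) * (m + D).choose D := by
  have h := Nat.choose_mul_succ_eq (m + D) D
  have e : m + D + 1 - D = m + 1 := by omega
  rw [e] at h
  have e2 : m + 1 + D = m + D + 1 := by ring
  rw [e2]
  linarith

theorem choose_le (N D : ℕ) : (N + D).choose D ≤ (N + 1) ^ D := by
  induction D with
  | zero => simp
  | succ D ih =>
    have h := Nat.add_one_mul_choose_eq (N + D) D
    have h2 : (D + 1) * (N + (D + 1)).choose (D + 1) ≤ (D + 1) * ((N + 1) ^ (D + 1)) := by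
      calc (D + 1) * (N + (D + 1)).choose (D + 1) = (N + D + 1) * (N + D).choose D := by
            rw [show N + D + 1 = N + (D + 1) from rfl] at h ⊢
            linarith
        _ ≤ ((D + 1) * (N + 1)) * (N + 1) ^ D := by
            apply Nat.mul_le_mul _ ih
            nlinarith
        _ = _ := by ring
    exact Nat.le_of_mul_le_mul_left h2 (by omega)

/-- The iteration. -/
theorem order (F : Finset ι) (s : ι → ℕ → α) (C ℓ : ℕ) (hC : 1 ≤ C) (X : Finset ℕ)
    (hXN : X.card ≤ 2 ^ ℓ)
    (hsep : ∀ G ⊆ F, G.Nonempty → ∀ Y ⊆ X,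
      (∀ x ∈ Y, ∀ y ∈ Y, x ≠ y → ∃ i ∈ G, s i x ≠ s i y) → Y.card ≤ C * G.card) :
    ∀ (n : ℕ) (L : List (List ℕ)), L.length = n + 1 → (∀ l ∈ L, l ≠ []) → L.flatten.Nodup →
      (∀ x ∈ L.flatten, x ∈ X) →
      ∃ l : List ℕ, l.Perm L.flatten ∧
        (∑ i ∈ F, 2 ^ ch (s i) l) ≤
          (∑ i ∈ F, 2 ^ (L.map (ch (s i))).sum) * (n + 4 * C * ℓ).choose (4 * C * ℓ) := by
  classical
  set D := 4 * C * ℓ with hD
  intro n
  induction n with
  | zero =>
    intro L hL hne hnd hX
    obtain ⟨l, rfl⟩ := List.length_eq_one_iff.1 hL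
    refine ⟨l, by simp, ?_⟩
    simp
  | succ n ih =>
    intro L hL hne hnd hX
    obtain ⟨hnd1, hnd2⟩ := List.nodup_flatten.1 hnd
    -- the heads
    have hheads : (L.map List.headI).Nodup := by
      rw [List.Nodup, List.pairwise_map]
      refine List.Pairwise.imp_of_mem ?_ hnd2
      intro l l' hl hl' hdis heq
      have h1 : l.headI ∈ l := by
        obtain ⟨a, t, rfl⟩ := List.exists_cons_of_ne_nil (hne l hl)
        simp
      have h2 : l'.headI ∈ l' := by
        obtain ⟨a, t, rfl⟩ := List.exists_cons_of_ne_nil (hne l' hl')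
        simp
      rw [← heq] at h2
      exact hdis h1 h2
    set X' := (L.map List.headI).toFinset with hX'
    have hX'c : X'.card = n + 2 := by
      rw [hX', List.toFinset_card_of_nodup hheads, List.length_map, hL]
    have hX'X : X' ⊆ X := by
      intro x hx
      rw [hX', List.mem_toFinset, List.mem_map] at hx
      obtain ⟨l, hl, rfl⟩ := hx
      apply hX
      rw [List.mem_flatten]
      refine ⟨l, hl, ?_⟩
      obtain ⟨a, t, rfl⟩ := List.exists_cons_of_ne_nil (hne l hl)
      simp
    set w : ι → ℕ := fun i => 2 ^ (L.map (ch (s i))).sum with hw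
    obtain ⟨x, hx, y, hy, hxy, hclose⟩ := close_pair F s C ℓ hC X' (by omega)
      ((card_le_card hX'X).trans hXN)
      (fun G hG hGne Y hY => hsep G hG hGne Y (hY.trans hX'X)) w
    rw [hX', List.mem_toFinset, List.mem_map] at hx hy
    obtain ⟨l₁, hl₁, rfl⟩ := hx
    obtain ⟨l₂, hl₂, rfl⟩ := hy
    have hl12 : l₂ ≠ l₁ := fun h => hxy (by rw [h])
    have hl₂' : l₂ ∈ L.erase l₁ := (List.mem_erase_of_ne hl12).2 hl₂
    have hp1 : L.Perm (l₁ :: l₂ :: (L.erase l₁).erase l₂) :=
      (List.perm_cons_erase hl₁).trans ((List.perm_cons_erase hl₂').cons l₁)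
    set R := (L.erase l₁).erase l₂ with hR
    have hlenR : R.length = n := by
      have := hp1.length_eq
      rw [hL] at this
      simp only [List.length_cons] at this
      omega
    set L' := (l₁.reverse ++ l₂) :: R with hL'
    have hflat : L'.flatten.Perm L.flatten := by
      have h1 : L'.flatten.Perm (l₁ :: l₂ :: R).flatten := by
        rw [hL', List.flatten_cons, List.flatten_cons, List.flatten_cons, List.append_assoc]
        exact (List.reverse_perm l₁).append_right _
      exact h1.trans hp1.flatten.symm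
    have hneR : ∀ l ∈ R, l ≠ [] := fun l hl => hne l (hp1.mem_iff.2 (by
      rw [List.mem_cons, List.mem_cons]
      exact Or.inr (Or.inr hl)))
    obtain ⟨l, hl, hlw⟩ := ih L' (by rw [hL', List.length_cons, hlenR]) (by
      intro l hl
      rw [hL', List.mem_cons] at hl
      rcases hl with rfl | hl
      · have := hne l₂ hl₂
        simp [this]
      · exact hneR l hl) (hflat.nodup_iff.2 hnd) (fun x hx => hX x (hflat.mem_iff.1 hx))
    refine ⟨l, hl.trans hflat, hlw.trans ?_⟩
    -- the weights
    have hwL : ∀ i, (L.map (ch (s i))).sum = ch (s i) l₁ + ch (s i) l₂ +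
        (R.map (ch (s i))).sum := by
      intro i
      rw [(hp1.map (ch (s i))).sum_eq]
      simp only [List.map_cons, List.sum_cons]
      ring
    have hwL' : ∀ i, (2 : ℕ) ^ (L'.map (ch (s i))).sum =
        w i + (if s i l₁.headI ≠ s i l₂.headI then w i else 0) := by
      intro i
      rw [hL', List.map_cons, List.sum_cons, ch_join _ _ _ (hne l₁ hl₁) (hne l₂ hl₂)]
      simp only [hw]
      rw [hwL i]
      by_cases h : s i l₁.headI = s i l₂.headI
      · simp only [h, if_true, ne_eq, not_true_eq_false, if_false, Nat.add_zero]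
      · simp only [h, if_false, ne_eq, not_false_eq_true, if_true]
        rw [show ch (s i) l₁ + ch (s i) l₂ + 1 + (R.map (ch (s i))).sum =
          (ch (s i) l₁ + ch (s i) l₂ + (R.map (ch (s i))).sum) + 1 by ring, pow_succ]
        ring
    have hsumL' : (∑ i ∈ F, (2 : ℕ) ^ (L'.map (ch (s i))).sum) =
        (∑ i ∈ F, w i) + ∑ i ∈ F with s i l₁.headI ≠ s i l₂.headI, w i := by
      rw [sum_congr rfl (fun i _ => hwL' i), sum_add_distrib, sum_filter]
    rw [hsumL']
    set W := ∑ i ∈ F, w i with hW
    set V := ∑ i ∈ F with s i l₁.headI ≠ s i l₂.headI, w i with hV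
    rw [hX'c] at hclose
    have hch := choose_step n D
    -- (n + 1) V ≤ D W
    have h1 : (n + 1) * (W + V) ≤ (n + 1 + D) * W := by nlinarith
    have h2 : (n + 1) * ((W + V) * (n + D).choose D) ≤ (n + 1) * (W * (n + 1 + D).choose D) := by
      calc (n + 1) * ((W + V) * (n + D).choose D) = ((n + 1) * (W + V)) * (n + D).choose D := by
            ring
        _ ≤ ((n + 1 + D) * W) * (n + D).choose D := Nat.mul_le_mul_right _ h1
        _ = W * ((n + 1 + D) * (n + D).choose D) := by ring
        _ = W * ((n + 1) * (n + 1 + D).choose D) := by rw [hch]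
        _ = _ := by ring
    exact Nat.le_of_mul_le_mul_left h2 (by omega)

end Pool.Agent.W2helper90.FD
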